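import Pool.Agent.W211.AF.Stm2

/-! Project AF, ID2: the flux identity. -/

set_option autoImplicit false

namespace Pool.Agent.W672.AF

open FreeGroup
open Pool.Agent.W211.AF (G RR S_TAU S_ID2)
open Pool.Agent.Results.MP_11aa79_an.NotFactor
open Pool.Agent.Results.MP_11aa79_an.NotFactor.Kap
open Pool.Agent.Results.MP_11aa79_an.NotFactor.Main
open Pool.Agent.Results.MP_11aa79_an.NotFactor.Words
open Pool.Agent.Results.MP_11aa79_an.NotFactor.Fac

theorem fin_sum {f : G → ℂ} (h : (Function.support f).Finite) : Summable fun g => ‖f g‖ := by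
  apply summable_of_hasFiniteSupport
  refine h.subset fun x hx => ?_
  rw [Function.mem_support] at hx ⊢
  intro h0
  exact hx (by rw [h0, norm_zero])

theorem fin_sum' {f : G → ℂ} (h : (Function.support f).Finite) (F : G → ℂ) :
    Summable fun g => f g * F g := by
  apply summable_of_hasFiniteSupport
  refine h.subset fun x hx => ?_
  rw [Function.mem_support] at hx ⊢
  intro h0
  exact hx (by rw [h0, zero_mul])

theorem cv_fin {p q : G → ℂ} (hp : (Function.support p).Finite)
    (hq : (Function.support q).Finite) : (Function.support (cv p q)).Finite := by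
  refine ((hp.prod hq).image fun s : G × G => s.1 * s.2).subset fun x hx => ?_
  rw [Function.mem_support] at hx
  by_contra hn
  apply hx
  unfold cv
  have h0 : ∀ h : G, p h * q (h⁻¹ * x) = 0 := by
    intro h
    by_contra hc
    apply hn
    refine ⟨(h, h⁻¹ * x), ⟨?_, ?_⟩, by simp⟩
    · rw [Function.mem_support]
      exact fun h1 => hc (by rw [h1, zero_mul])
    · rw [Function.mem_support]
      exact fun h1 => hc (by rw [h1, mul_zero])
  simp_rw [h0]
  exact tsum_zero

theorem zz_fin (A B : ℂ) : (Function.support (zz (0 : Fin 2) 1 A B)).Finite := by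
  refine (Set.toFinite ({1, of 0, of 1} : Set G)).subset fun x hx => ?_
  rw [Function.mem_support] at hx
  by_contra hn
  apply hx
  simp only [Set.mem_insert_iff, Set.mem_singleton_iff, not_or] at hn
  unfold zz
  rw [if_neg hn.1, if_neg hn.2.1, if_neg hn.2.2]
  ring

theorem tau_zz (A B : ℂ) (hAB : A + B = 1) (x : G) :
    tau (zz (0 : Fin 2) 1 A B) (0 : Fin 2) x = if x = 1 then -A else 0 := by
  have h1 := tsum_zz (i := (0 : Fin 2)) (j := 1) (by decide) A B (fun x => st (0 : Fin 2) x⁻¹) x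
  have h2 : tau (zz (0 : Fin 2) 1 A B) (0 : Fin 2) x =
      ∑' u, zz (0 : Fin 2) 1 A B u * st (0 : Fin 2) (u⁻¹ * x)⁻¹ := by
    unfold tau
    congr 1
    ext u
    rw [mul_inv_rev, inv_inv]
  rw [h2, h1]
  have h3 := st_harm (i := (0 : Fin 2)) (j := 1) (by decide) hAB x⁻¹
  simp only [mul_inv_rev, inv_inv]
  rw [h3]
  simp

theorem tau_cv {p q : G → ℂ} (hp : Summable fun g => ‖p g‖) (hq : Summable fun g => ‖q g‖) (x : G) :
    tau (cv p q) (0 : Fin 2) x = cv p (tau q (0 : Fin 2)) x := by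
  have h1 := cv_assoc hp hq (fun x => st (0 : Fin 2) x⁻¹) 1 (fun x => norm_st_le _ _) x
  have h2 : ∀ v, tau q (0 : Fin 2) (v⁻¹ * x) = ∑' h, q h * st (0 : Fin 2) (h⁻¹ * (v⁻¹ * x))⁻¹ := by
    intro v
    unfold tau
    congr 1; ext h
    congr 2
    group
  have h3 : tau (cv p q) (0 : Fin 2) x = ∑' u, cv p q u * st (0 : Fin 2) (u⁻¹ * x)⁻¹ := by
    unfold tau
    congr 1; ext u
    congr 2
    group
  rw [h3, ← h1]
  have h4 : cv p (tau q (0 : Fin 2)) x = ∑' v, p v * tau q (0 : Fin 2) (v⁻¹ * x) := rfl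
  rw [h4]
  simp_rw [h2]

theorem conv_rconv_swap {p b : G → ℂ} (hp : Summable fun g => ‖p g‖)
    (hb : Summable fun g => ‖b g‖) (k : H G) :
    conv p (rconv b k) = rconv b (conv p k) := by
  have h1 : HasSum (fun g => b g • (tr (Equiv.mulRight g⁻¹) k)) (rconv b k) :=
    (summable_rconv hb k).hasSum
  have h2 := h1.mapL (conv p)
  rw [← h2.tsum_eq]
  unfold rconv
  congr 1
  ext g
  rw [map_smul, conv_rtr hp]

theorem main : Pool.Agent.W211.AF.S_ID2 := by
  intro hTau A B hAB p q hpf hqf hp hq k hk y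
  have hps : Summable fun g => ‖p g‖ := hp.1
  have hqs : Summable fun g => ‖q g‖ := hq.1
  have hvf : (Function.support (cv p q)).Finite := cv_fin hpf hqf
  have hv0 : ∑' g, cv p q g = 0 := by
    rw [tsum_cv hps hqs, hp.2, zero_mul]
  obtain ⟨hτq, -⟩ := hTau q hqf hq.2
  obtain ⟨hτv, -⟩ := hTau (cv p q) hvf hv0
  have hτqs := fin_sum hτq
  have hτvs := fin_sum hτv
  -- the branch sums of the remainder
  have hRR : ∀ g, RR A B p q g = zz (0 : Fin 2) 1 A B g - cv p q g := fun g => rfl
  have hτR : ∀ x, tau (RR A B p q) (0 : Fin 2) x =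
      (if x = 1 then -A else 0) - tau (cv p q) (0 : Fin 2) x := by
    intro x
    rw [← tau_zz A B hAB x]
    unfold tau
    rw [← Summable.tsum_sub (fin_sum' (zz_fin A B) _) (fin_sum' hvf _)]
    congr 1; ext g
    rw [hRR, sub_mul]
  -- the identity of the branch sums
  let Tq : H G := ⟨tau q (0 : Fin 2), summable_sq_of_summable hτqs⟩
  have hTq : ∀ x, Tq x = tau q (0 : Fin 2) x := fun x => rfl
  have e1 : conv p Tq = rconv (tau (cv p q) (0 : Fin 2)) (lp.single 2 1 1) := by
    ext x
    have h1 : (rconv (tau (cv p q) (0 : Fin 2)) (lp.single 2 1 1 : H G)) x =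
        tau (cv p q) (0 : Fin 2) x := by
      rw [rconv_apply hτvs, tsum_eq_single x]
      · simp
      · intro g hg
        have : x * g⁻¹ ≠ 1 := fun h => hg (by rw [mul_inv_eq_one] at h; exact h.symm)
        simp [this]
    rw [h1, tau_cv hps hqs x, conv_apply hps]
    rfl
  have e2 : rconv (tau (cv p q) (0 : Fin 2)) k = Tq := by
    have h1 := kaplansky hps k hk (rconv (tau (cv p q) (0 : Fin 2)) k - Tq) (by
      rw [map_sub, e1, ← hk, ← conv_rconv_swap hps hτvs k, sub_self])
    exact sub_eq_zero.1 h1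
  have e3 : ∑' g, tau (cv p q) (0 : Fin 2) g * k (y * g⁻¹) = tau q (0 : Fin 2) y := by
    rw [← rconv_apply hτvs k y, e2]
  have e4 : ∑' g, tau (RR A B p q) (0 : Fin 2) g * k (y * g⁻¹) =
      -A * k y - tau q (0 : Fin 2) y := by
    rw [← e3]
    have h1 : ∀ g, tau (RR A B p q) (0 : Fin 2) g * k (y * g⁻¹) =
        (if g = 1 then -A * k y else 0) - tau (cv p q) (0 : Fin 2) g * k (y * g⁻¹) := by
      intro g
      rw [hτR, sub_mul]
      congr 1
      by_cases hg : g = 1
      · rw [if_pos hg, if_pos hg, hg, inv_one, mul_one]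
      · rw [if_neg hg, if_neg hg, zero_mul]
    simp_rw [h1]
    rw [Summable.tsum_sub, tsum_ite_eq]
    · exact (hasSum_ite_eq _ _).summable
    · exact fin_sum' hτv _
  rw [e4]
  ring

end Pool.Agent.W672.AF
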